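import Mathlib
import Pool.Agent.Y734.BR.Gal

/-!
# Job BR: the primes above `p`
-/

set_option autoImplicit false

namespace Pool.Agent.Y734.BR

open NumberField IsDedekindDomain Pool.Agent.TeamU

variable {L : Type} [Field L] [NumberField L]

/-- the primes above `p` -/
def Ab (L : Type) [Field L] [NumberField L] (p : ℕ) : Set (HeightOneSpectrum (𝓞 L)) :=
  {v | (p : 𝓞 L) ∈ v.asIdeal}

theorem int_mem {v : HeightOneSpectrum (𝓞 L)} {p : ℕ} (hp : p.Prime) (hv : v ∈ Ab L p) (m : ℤ) :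
    (m : 𝓞 L) ∈ v.asIdeal ↔ (p : ℤ) ∣ m := by
  have hv' : (p : 𝓞 L) ∈ v.asIdeal := hv
  constructor
  · intro h
    by_contra hnd
    obtain ⟨a, b, hab⟩ := (Irreducible.coprime_iff_not_dvd
      (Nat.prime_iff_prime_int.1 hp).irreducible).2 hnd
    apply v.isPrime.ne_top
    rw [Ideal.eq_top_iff_one]
    have h1 : (1 : 𝓞 L) = (a : 𝓞 L) * (p : 𝓞 L) + (b : 𝓞 L) * (m : 𝓞 L) := by
      have := congrArg (Int.cast : ℤ → 𝓞 L) hab
      push_cast at this
      exact this.symm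
    rw [h1]
    exact Ideal.add_mem _ (Ideal.mul_mem_left _ _ hv') (Ideal.mul_mem_left _ _ h)
  · rintro ⟨k, rfl⟩
    push_cast
    exact Ideal.mul_mem_right _ _ hv'

theorem ab_disj {v : HeightOneSpectrum (𝓞 L)} {p p' : ℕ} (hp : p.Prime) (hp' : p'.Prime)
    (hv : v ∈ Ab L p) (hv' : v ∈ Ab L p') : p = p' := by
  have h1 : ((p' : ℤ) : 𝓞 L) ∈ v.asIdeal := by
    have : (p' : 𝓞 L) ∈ v.asIdeal := hv'
    simpa using this
  have h2 := (int_mem hp hv _).1 h1
  rw [Int.natCast_dvd_natCast] at h2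
  exact (Nat.prime_dvd_prime_iff_eq hp hp').1 h2

theorem ab_nonempty {p : ℕ} (hp : p.Prime) : ∃ v, v ∈ Ab L p := by
  have h1 : Ideal.span {(p : 𝓞 L)} ≠ ⊤ := by
    intro h
    have h2 := Ideal.absNorm_span_natCast (S := 𝓞 L) p
    rw [h, Ideal.absNorm_top] at h2
    have h3 : 0 < Module.finrank ℤ (𝓞 L) := by
      rw [RingOfIntegers.rank]
      exact Module.finrank_pos
    exact absurd h2 (Nat.one_lt_pow h3.ne' hp.one_lt).ne
  obtain ⟨M, hM, hle⟩ := Ideal.exists_le_maximal _ h1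
  have hpM : (p : 𝓞 L) ∈ M := hle (Ideal.mem_span_singleton_self _)
  refine ⟨⟨M, hM.isPrime, ?_⟩, hpM⟩
  intro h
  rw [h, Ideal.mem_bot] at hpM
  exact hp.ne_zero (by exact_mod_cast hpM)

/-- an integer of `ℚ` -/
theorem exists_int (x : 𝓞 ℚ) : ∃ m : ℤ, x = (m : 𝓞 ℚ) :=
  ⟨Rat.ringOfIntegersEquiv x, by
    apply Rat.ringOfIntegersEquiv.injective
    simp⟩

theorem mem_act_ab (σ : L ≃ₐ[ℚ] L) {v : HeightOneSpectrum (𝓞 L)} {p : ℕ} (hv : v ∈ Ab L p) :
    act σ v ∈ Ab L p := by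
  change (p : 𝓞 L) ∈ (act σ v).asIdeal
  rw [mem_act, map_natCast]
  exact hv

theorem Cj.ab_eq {σ : L ≃ₐ[ℚ] L} (h : Cj σ) {p : ℕ} (hp : p.Prime)
    {w : HeightOneSpectrum (𝓞 L)} (hw : w ∈ Ab L p) : Ab L p = {w, act σ w} := by
  have := h.gal
  ext v
  simp only [Set.mem_insert_iff, Set.mem_singleton_iff]
  constructor
  · intro hv
    -- the prime of `ℚ` below
    have key : ∀ u : HeightOneSpectrum (𝓞 L), u ∈ Ab L p → ∀ x : 𝓞 ℚ,
        (x ∈ u.asIdeal.comap (algebraMap (𝓞 ℚ) (𝓞 L)) ↔ ∃ m : ℤ, x = (m : 𝓞 ℚ) ∧ (p : ℤ) ∣ m) := by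
      intro u hu x
      obtain ⟨m, rfl⟩ := exists_int x
      rw [Ideal.mem_comap, map_intCast, int_mem hp hu]
      constructor
      · intro h1
        exact ⟨m, rfl, h1⟩
      · rintro ⟨m', h1, h2⟩
        have : m = m' := by exact_mod_cast h1
        rwa [this]
    let q : HeightOneSpectrum (𝓞 ℚ) :=
      { asIdeal := w.asIdeal.comap (algebraMap (𝓞 ℚ) (𝓞 L))
        isPrime := Ideal.comap_isPrime _ _
        ne_bot := by
          intro h0
          have h1 : ((p : ℤ) : 𝓞 ℚ) ∈ w.asIdeal.comap (algebraMap (𝓞 ℚ) (𝓞 L)) :=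
            (key w hw _).2 ⟨p, rfl, dvd_rfl⟩
          rw [h0, Ideal.mem_bot] at h1
          exact hp.ne_zero (by exact_mod_cast h1) }
    have hq1 : Over w q := rfl
    have hq2 : Over v q := by
      change v.asIdeal.comap (algebraMap (𝓞 ℚ) (𝓞 L)) = w.asIdeal.comap (algebraMap (𝓞 ℚ) (𝓞 L))
      ext x
      rw [key v hv, key w hw]
    obtain ⟨τ, hτ⟩ := exists_act hq1 hq2
    rcases h.all τ with h1 | h1
    · left
      rw [← hτ, h1, act_one]
    · right
      rw [← hτ, h1]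
  · rintro (rfl | rfl)
    · exact hw
    · exact mem_act_ab σ hw

/-- finite products over all primes -/
theorem finprod_places (f : FinitePlace L → ℝ) :
    ∏ᶠ w : FinitePlace L, f w = ∏ᶠ v : HeightOneSpectrum (𝓞 L), f (FinitePlace.mk v) := by
  rw [← finprod_comp_equiv (FinitePlace.equivHeightOneSpectrum (K := L)).symm]
  rfl

theorem mk_lt_one {v : HeightOneSpectrum (𝓞 L)} {m : ℤ} :
    FinitePlace.mk v (m : L) < 1 ↔ (m : 𝓞 L) ∈ v.asIdeal := by
  have := FinitePlace.norm_lt_one_iff_mem L v (m : 𝓞 L)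
  rw [map_intCast] at this
  exact this

theorem mk_eq_one {v : HeightOneSpectrum (𝓞 L)} {m : ℤ} :
    FinitePlace.mk v (m : L) = 1 ↔ (m : 𝓞 L) ∉ v.asIdeal := by
  have := FinitePlace.norm_eq_one_iff_notMem L v (m : 𝓞 L)
  rw [map_intCast] at this
  exact this

/-- the product formula for the prime `p` -/
theorem prod_p {p : ℕ} (hp : p.Prime) (hfin : (Ab L p).Finite) :
    ∏ v ∈ hfin.toFinset, FinitePlace.mk v (p : L) = ((p : ℝ) ^ (Module.finrank ℚ L))⁻¹ := by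
  have hp0 : (p : L) ≠ 0 := by exact_mod_cast hp.ne_zero
  have hp0' : (p : ℝ) ≠ 0 := by exact_mod_cast hp.ne_zero
  have h1 := prod_abs_eq_one hp0
  have h2 : ∏ w : InfinitePlace L, w (p : L) ^ w.mult = (p : ℝ) ^ (Module.finrank ℚ L) := by
    rw [← InfinitePlace.sum_mult_eq, ← Finset.prod_pow_eq_pow_sum]
    refine Finset.prod_congr rfl fun w _ => ?_
    congr 1
    simp
  rw [h2, finprod_places (fun w => w (p : L))] at h1
  have h3 : ∏ᶠ v : HeightOneSpectrum (𝓞 L), FinitePlace.mk v (p : L) =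
      ∏ v ∈ hfin.toFinset, FinitePlace.mk v (p : L) := by
    refine finprod_eq_prod_of_mulSupport_subset _ ?_
    intro v hv
    rw [Set.Finite.coe_toFinset]
    by_contra h4
    apply hv
    have h5 : ((p : ℤ) : 𝓞 L) ∉ v.asIdeal := by
      intro h6
      apply h4
      change (p : 𝓞 L) ∈ v.asIdeal
      simpa using h6
    have h6 := mk_eq_one.2 h5
    simpa using h6
  rw [h3] at h1
  exact eq_inv_of_mul_eq_one_right h1

end Pool.Agent.Y734.BR
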