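import Mathlib
import Pool.Agent.Y734.BR.Fin
import Pool.Agent.Y734.Stms

/-!
# Job BR: the absolute value above `p`
-/

set_option autoImplicit false

namespace Pool.Agent.Y734.BR

open NumberField IsDedekindDomain Pool.Agent.TeamU MvPolynomial

variable {L : Type} [Field L] [NumberField L]

theorem val_p {σ : L ≃ₐ[ℚ] L} (h : Cj σ) {p : ℕ} (hp : p.Prime) {w : HeightOneSpectrum (𝓞 L)}
    (hw : w ∈ Ab L p) :
    (act σ w = w → FinitePlace.mk w (p : L) = ((p : ℝ) ^ (Module.finrank ℚ L))⁻¹) ∧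
    (act σ w ≠ w → FinitePlace.mk w (p : L) = (p : ℝ)⁻¹ ∧ Module.finrank ℚ L = 2) := by
  classical
  have hset := h.ab_eq hp hw
  have hfin : (Ab L p).Finite := by
    rw [hset]
    exact Set.toFinite _
  have hprod := prod_p hp hfin
  have hfs : hfin.toFinset = {w, act σ w} := by
    ext v
    rw [Set.Finite.mem_toFinset, hset]
    simp
  rw [hfs] at hprod
  constructor
  · intro h1
    rw [h1, Finset.pair_eq_singleton, Finset.prod_singleton] at hprod
    exact hprod
  · intro h1
    have h2 : Module.finrank ℚ L = 2 := by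
      rcases h.deg with ⟨-, h3⟩ | ⟨h3, -⟩
      · exact absurd (by rw [h3, act_one]) h1
      · exact h3
    refine ⟨?_, h2⟩
    rw [Finset.prod_pair (Ne.symm h1), h2] at hprod
    have h3 : FinitePlace.mk (act σ w) (p : L) = FinitePlace.mk w (p : L) := by
      have := mk_act σ w (p : L)
      rwa [map_natCast] at this
    rw [h3, ← sq, ← inv_pow] at hprod
    exact (pow_left_inj₀ (apply_nonneg _ _) (by positivity) two_ne_zero).1 hprod

theorem rat_pow {p : ℕ} (hp : p.Prime) {w : HeightOneSpectrum (𝓞 L)} (hw : w ∈ Ab L p) {d : ℝ}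
    (hd : 0 < d) (hpd : FinitePlace.mk w (p : L) = ((p : ℝ)⁻¹) ^ d) (r : ℚ) :
    FinitePlace.mk w (algebraMap ℚ L r) = (padicNorm p r : ℝ) ^ d := by
  have hfact : Fact p.Prime := ⟨hp⟩
  have hint : ∀ m : ℤ, m ≠ 0 → FinitePlace.mk w (m : L) = (padicNorm p (m : ℚ) : ℝ) ^ d := by
    intro m hm
    obtain ⟨k, m', hm', rfl⟩ : ∃ (k : ℕ) (m' : ℤ), ¬ (p : ℤ) ∣ m' ∧ m = (p : ℤ) ^ k * m' := by
      obtain ⟨c, hc1, hc2⟩ := (FiniteMultiplicity.exists_eq_pow_mul_and_not_dvd
        (Int.finiteMultiplicity_iff.2 ⟨by simpa using hp.ne_one, hm⟩) :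
          ∃ c : ℤ, m = (p : ℤ) ^ multiplicity (p : ℤ) m * c ∧ ¬ (p : ℤ) ∣ c)
      exact ⟨_, c, hc2, hc1⟩
    have h1 : FinitePlace.mk w (m' : L) = 1 := by
      rw [mk_eq_one, int_mem hp hw]
      exact hm'
    have h2 : padicNorm p (m' : ℚ) = 1 := padicNorm.int_eq_one_iff m' |>.2 hm'
    push_cast
    rw [map_mul, map_pow, h1, mul_one, hpd, padicNorm.mul, h2, mul_one]
    have h3 : padicNorm p ((p : ℚ) ^ k) = ((p : ℚ)⁻¹) ^ k := by
      have h4 := map_pow (IsAbsoluteValue.toAbsoluteValue (padicNorm p)) (p : ℚ) k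
      have h5 : padicNorm p ((p : ℚ) ^ k) = (padicNorm p (p : ℚ)) ^ k := h4
      rw [h5, padicNorm.padicNorm_p_of_prime]
    rw [h3]
    push_cast
    rw [← Real.rpow_natCast, ← Real.rpow_natCast, ← Real.rpow_mul (by positivity),
      ← Real.rpow_mul (by positivity), mul_comm]
  by_cases hr : r = 0
  · rw [hr, map_zero, map_zero]
    simp [Real.zero_rpow hd.ne']
  · have hnum : r.num ≠ 0 := Rat.num_ne_zero.2 hr
    have hden : (r.den : ℤ) ≠ 0 := by exact_mod_cast r.den_nz
    have h1 : (r : ℚ) = (r.num : ℚ) / ((r.den : ℤ) : ℚ) := by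
      rw [Int.cast_natCast]
      exact (Rat.num_div_den r).symm
    have h2 : algebraMap ℚ L r = (r.num : L) / ((r.den : ℤ) : L) := by
      conv_lhs => rw [h1]
      rw [map_div₀, map_intCast, map_intCast]
    rw [h2, map_div₀, hint _ hnum, hint _ hden]
    conv_rhs => rw [h1]
    rw [padicNorm.div]
    push_cast
    rw [Real.div_rpow]
    · exact_mod_cast padicNorm.nonneg _
    · exact_mod_cast padicNorm.nonneg _

/-- powers of a nonarchimedean absolute value -/
noncomputable def absPow (w : HeightOneSpectrum (𝓞 L)) (s : ℝ) (hs : 0 < s) : AbsoluteValue L ℝ where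
  toFun y := FinitePlace.mk w y ^ s
  map_mul' a b := by
    rw [map_mul, Real.mul_rpow (apply_nonneg _ _) (apply_nonneg _ _)]
  nonneg' a := Real.rpow_nonneg (apply_nonneg _ _) _
  eq_zero' a := by
    rw [Real.rpow_eq_zero (apply_nonneg _ _) hs.ne', map_eq_zero]
  add_le' a b := by
    have h1 := FinitePlace.add_le (FinitePlace.mk w) a b
    have h2 : FinitePlace.mk w (a + b) ^ s ≤
        max (FinitePlace.mk w a) (FinitePlace.mk w b) ^ s :=
      Real.rpow_le_rpow (apply_nonneg _ _) h1 hs.le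
    refine h2.trans ?_
    have ha : 0 ≤ FinitePlace.mk w a ^ s := Real.rpow_nonneg (apply_nonneg _ _) _
    have hb : 0 ≤ FinitePlace.mk w b ^ s := Real.rpow_nonneg (apply_nonneg _ _) _
    rcases max_choice (FinitePlace.mk w a) (FinitePlace.mk w b) with h3 | h3
    · rw [h3]; linarith
    · rw [h3]; linarith

theorem absPow_apply (w : HeightOneSpectrum (𝓞 L)) (s : ℝ) (hs : 0 < s) (y : L) :
    absPow w s hs y = FinitePlace.mk w y ^ s := rfl

theorem absPow_na (w : HeightOneSpectrum (𝓞 L)) (s : ℝ) (hs : 0 < s) (a b : L) :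
    absPow w s hs (a + b) ≤ max (absPow w s hs a) (absPow w s hs b) := by
  have h1 := FinitePlace.add_le (FinitePlace.mk w) a b
  have h2 : FinitePlace.mk w (a + b) ^ s ≤
      max (FinitePlace.mk w a) (FinitePlace.mk w b) ^ s :=
    Real.rpow_le_rpow (apply_nonneg _ _) h1 hs.le
  rw [absPow_apply, absPow_apply, absPow_apply]
  refine h2.trans ?_
  rcases max_choice (FinitePlace.mk w a) (FinitePlace.mk w b) with h3 | h3
  · rw [h3]; exact le_max_left _ _
  · rw [h3]; exact le_max_right _ _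

theorem iSup_rpow {ι : Type} [Finite ι] [Nonempty ι] (f : ι → ℝ) (hf : ∀ i, 0 ≤ f i) {s : ℝ}
    (hs : 0 < s) : (⨆ i, f i ^ s) = (⨆ i, f i) ^ s := by
  apply le_antisymm
  · exact ciSup_le fun i => Real.rpow_le_rpow (hf i) (Finite.le_ciSup_of_le i le_rfl) hs.le
  · obtain ⟨i, hi⟩ := exists_eq_ciSup_of_finite (f := f)
    rw [← hi]
    exact Finite.le_ciSup_of_le (f := fun i => f i ^ s) i le_rfl

omit [NumberField L] in
/-- the maximum of the coordinates is positive -/
theorem sup_pos (a : AbsoluteValue L ℝ) {x : Fin 3 → L} (hx : x ≠ 0) : 0 < ⨆ j, a (x j) := by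
  obtain ⟨i, hi⟩ := Function.ne_iff.1 hx
  exact lt_of_lt_of_le (a.pos hi) (Finite.le_ciSup_of_le (f := fun j => a (x j)) i le_rfl)

theorem weil_rpow (a : AbsoluteValue L ℝ) {s : ℝ} (hs : 0 < s) {x : Fin 3 → L} (hx : x ≠ 0)
    (F : MvPolynomial (Fin 3) ℚ) (hF : aeval x F ≠ 0) (d : ℕ) :
    weil (n := 2) (fun y => a y ^ s) F d x = s * weil (n := 2) a F d x := by
  unfold weil
  rw [iSup_rpow (fun j => a (x j)) (fun j => a.nonneg _) hs]
  have h1 : 0 < ⨆ j, a (x j) := sup_pos a hx
  have h2 : 0 < a (aeval x F) := a.pos hF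
  rw [← Real.log_rpow (by positivity), Real.div_rpow (by positivity) h2.le,
    ← Real.rpow_natCast, ← Real.rpow_natCast, ← Real.rpow_mul h1.le, ← Real.rpow_mul h1.le,
    mul_comm]

/-- **The absolute value above `p`.** -/
theorem exists_loc {σ : L ≃ₐ[ℚ] L} (h : Cj σ) {p : ℕ} (hp : p.Prime) :
    ∃ μ : AbsoluteValue L ℝ, (∀ r : ℚ, μ (algebraMap ℚ L r) = (padicNorm p r : ℝ)) ∧
      (∀ a b, μ (a + b) ≤ max (μ a) (μ b)) ∧
      ∀ (x : Fin 3 → L) (F : MvPolynomial (Fin 3) ℚ) (d : ℕ), x ≠ 0 → aeval x F ≠ 0 →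
        2 / (Module.finrank ℚ L : ℝ) * ∑ᶠ v ∈ Ab L p, weil (n := 2) (FinitePlace.mk v) F d x =
          weil (n := 2) μ F d x + weil (n := 2) (fun y => μ (σ y)) F d x := by
  classical
  obtain ⟨w, hw⟩ := ab_nonempty (L := L) hp
  have hv := val_p h hp hw
  have hset := h.ab_eq hp hw
  have hn : 0 < Module.finrank ℚ L := Module.finrank_pos
  have hn' : (0 : ℝ) < Module.finrank ℚ L := by exact_mod_cast hn
  have hpp : (0 : ℝ) < p := by exact_mod_cast hp.pos
  let A : AbsoluteValue L ℝ := (FinitePlace.mk w).1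
  have hA : ∀ y, A y = FinitePlace.mk w y := fun y => rfl
  by_cases hc : act σ w = w
  · have hs : 0 < (Module.finrank ℚ L : ℝ)⁻¹ := inv_pos.2 hn'
    refine ⟨absPow w _ hs, ?_, absPow_na w _ hs, ?_⟩
    · intro r
      rw [absPow_apply, rat_pow hp hw hn', ← Real.rpow_mul, mul_inv_cancel₀ hn'.ne', Real.rpow_one]
      · exact_mod_cast padicNorm.nonneg _
      · rw [hv.1 hc, Real.inv_rpow hpp.le, Real.rpow_natCast]
    · intro x F d hx hF
      rw [hset, hc, Set.pair_eq_singleton, finsum_mem_singleton]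
      have h1 : ∀ y, FinitePlace.mk w (σ y) = FinitePlace.mk w y := by
        intro y
        have := mk_act σ w y
        rwa [hc] at this
      have h2 : weil (n := 2) (absPow w _ hs) F d x =
          (Module.finrank ℚ L : ℝ)⁻¹ * weil (n := 2) (FinitePlace.mk w) F d x :=
        weil_rpow A hs hx F hF d
      have h3 : weil (n := 2) (fun y => absPow w _ hs (σ y)) F d x =
          weil (n := 2) (absPow w _ hs) F d x := by
        congr 1
        funext y
        rw [absPow_apply, absPow_apply, h1]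
      rw [h3, h2]
      ring
  · obtain ⟨h1, h2⟩ := hv.2 hc
    refine ⟨absPow w 1 one_pos, ?_, absPow_na w _ one_pos, ?_⟩
    · intro r
      rw [absPow_apply, rat_pow hp hw one_pos (by rw [Real.rpow_one]; exact h1), Real.rpow_one,
        Real.rpow_one]
    · intro x F d hx hF
      rw [hset, finsum_mem_pair (Ne.symm hc), h2]
      have h3 : ∀ y, FinitePlace.mk (act σ w) y = FinitePlace.mk w (σ y) := by
        intro y
        have := mk_act σ w (σ y)
        rwa [h.invol] at this
      have h4 : weil (n := 2) (absPow w 1 one_pos) F d x = weil (n := 2) (FinitePlace.mk w) F d x := by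
        congr 1
        funext y
        rw [absPow_apply, Real.rpow_one]
      have h5 : weil (n := 2) (fun y => absPow w 1 one_pos (σ y)) F d x =
          weil (n := 2) (FinitePlace.mk (act σ w)) F d x := by
        congr 1
        funext y
        rw [absPow_apply, Real.rpow_one, h3]
      rw [h4, h5]
      push_cast
      ring

end Pool.Agent.Y734.BR
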