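import Mathlib
import Pool.Agent.Y734.BR.Loc

/-!
# Job BR: seminorms, Gauss' lemma for the symmetric tensor
-/

set_option autoImplicit false

namespace Pool.Agent.Y734.BR

open NumberField IsDedekindDomain MvPolynomial

variable {L : Type} [Field L] [NumberField L]

/-- the value of a linear form -/
noncomputable def ev (G : Fin 3 → ℚ) (x : Fin 3 → L) : L := ∑ i, algebraMap ℚ L (G i) * x i

theorem ev_lin (G : Fin 3 → ℚ) (x : Fin 3 → L) : aeval x (lin (n := 2) G) = ev G x := by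
  unfold lin ev
  rw [map_sum]
  refine Finset.sum_congr rfl fun i _ => ?_
  rw [map_mul, aeval_C, aeval_X]

theorem ev_add (G H : Fin 3 → ℚ) (x : Fin 3 → L) : ev (G + H) x = ev G x + ev H x := by
  unfold ev
  rw [← Finset.sum_add_distrib]
  refine Finset.sum_congr rfl fun i _ => ?_
  rw [Pi.add_apply, map_add, add_mul]

theorem ev_smul (r : ℚ) (G : Fin 3 → ℚ) (x : Fin 3 → L) :
    ev (r • G) x = algebraMap ℚ L r * ev G x := by
  unfold ev
  rw [Finset.mul_sum]
  refine Finset.sum_congr rfl fun i _ => ?_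
  rw [Pi.smul_apply, smul_eq_mul, map_mul, mul_assoc]

theorem ev_single (i : Fin 3) (x : Fin 3 → L) : ev (Pi.single i 1) x = x i := by
  unfold ev
  rw [Finset.sum_eq_single i]
  · rw [Pi.single_eq_same, map_one, one_mul]
  · intro j _ hj
    rw [Pi.single_eq_of_ne hj, map_zero, zero_mul]
  · intro h
    exact absurd (Finset.mem_univ _) h

theorem ev_conj (σ : L ≃ₐ[ℚ] L) (G : Fin 3 → ℚ) (x : Fin 3 → L) :
    ev G (fun j => σ (x j)) = σ (ev G x) := by
  unfold ev
  rw [map_sum]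
  refine Finset.sum_congr rfl fun i _ => ?_
  rw [map_mul, AlgEquiv.commutes]

/-- the normalised value of a linear form -/
noncomputable def nrm (a : AbsoluteValue L ℝ) (x : Fin 3 → L) (G : Fin 3 → ℚ) : ℝ :=
  a (ev G x) / ⨆ j, a (x j)

theorem semi_nrm (a : AbsoluteValue L ℝ) (v : Option ℕ)
    (ha : ∀ r : ℚ, a (algebraMap ℚ L r) = absQ v r) {x : Fin 3 → L} (hx : x ≠ 0) :
    Semi v (nrm a x) := by
  have hA : 0 < ⨆ j, a (x j) := sup_pos a hx
  refine ⟨fun G => ?_, fun G H => ?_, fun r G => ?_, fun i => ?_, ?_⟩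
  · exact div_nonneg (a.nonneg _) hA.le
  · unfold nrm
    rw [← add_div, ev_add]
    exact div_le_div_of_nonneg_right (a.add_le _ _) hA.le
  · unfold nrm
    rw [ev_smul, map_mul, ha, mul_div_assoc]
  · unfold nrm
    rw [ev_single, div_le_one hA]
    exact Finite.le_ciSup_of_le (f := fun j => a (x j)) i le_rfl
  · obtain ⟨i, hi⟩ := exists_eq_ciSup_of_finite (f := fun j => a (x j))
    refine ⟨i, ?_⟩
    unfold nrm
    rw [ev_single, ← hi, div_self]
    rw [hi]
    exact hA.ne'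

theorem nrm_pos (a : AbsoluteValue L ℝ) {x : Fin 3 → L} (hx : x ≠ 0) {G : Fin 3 → ℚ}
    (hG : ev G x ≠ 0) : 0 < nrm a x G := div_pos (a.pos hG) (sup_pos a hx)

/-- the local Weil function of a union of lines -/
theorem weil_prod (a : AbsoluteValue L ℝ) {x : Fin 3 → L} (hx : x ≠ 0) {q : ℕ}
    (H : Fin q → Fin 3 → ℚ) (hH : ∀ i, ev (H i) x ≠ 0) :
    weil (n := 2) a (∏ i, lin (n := 2) (H i)) q x = ∑ i, -Real.log (nrm a x (H i)) := by
  have hA : 0 < ⨆ j, a (x j) := sup_pos a hx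
  unfold weil
  have h1 : aeval x (∏ i, lin (n := 2) (H i)) = ∏ i, ev (H i) x := by
    rw [map_prod]
    exact Finset.prod_congr rfl fun i _ => ev_lin _ _
  rw [h1, map_prod]
  have h2 : (⨆ j, a (x j)) ^ q / ∏ i, a (ev (H i) x) = ∏ i, (nrm a x (H i))⁻¹ := by
    unfold nrm
    simp only [inv_div]
    rw [Finset.prod_div_distrib, Finset.prod_const, Finset.card_univ, Fintype.card_fin]
  rw [h2, Real.log_prod (fun i _ => inv_ne_zero (nrm_pos a hx (hH i)).ne')]
  exact Finset.sum_congr rfl fun i _ => Real.log_inv _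

/-- Gauss' lemma -/
theorem gauss (a : AbsoluteValue L ℝ) (h2 : 1 / 2 ≤ a 2) {x y : Fin 3 → L} (hx : x ≠ 0)
    (hy : y ≠ 0) {K : ℝ} (hK : ∀ i j, a (x i * y j + x j * y i) ≤ K) :
    (⨆ j, a (x j)) * (⨆ j, a (y j)) ≤ 4 * K := by
  have hA : 0 < ⨆ j, a (x j) := sup_pos a hx
  have hB : 0 < ⨆ j, a (y j) := sup_pos a hy
  obtain ⟨i, hi⟩ := exists_eq_ciSup_of_finite (f := fun j => a (x j))
  obtain ⟨j, hj⟩ := exists_eq_ciSup_of_finite (f := fun j => a (y j))
  have hxj : a (x j) ≤ ⨆ j, a (x j) := Finite.le_ciSup_of_le (f := fun j => a (x j)) j le_rfl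
  set A := ⨆ j, a (x j) with hAdef
  set B := ⨆ j, a (y j) with hBdef
  have hi' : a (x i) = A := hi
  have hj' : a (y j) = B := hj
  by_contra hcon
  push Not at hcon
  -- `K < A B / 4`
  have h3 : a (x i * y j) ≤ a (x i * y j + x j * y i) + a (x j * y i) := by
    have h4 : x i * y j = (x i * y j + x j * y i) + -(x j * y i) := by ring
    calc a (x i * y j) = a ((x i * y j + x j * y i) + -(x j * y i)) := by rw [← h4]
      _ ≤ a (x i * y j + x j * y i) + a (-(x j * y i)) := a.add_le _ _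
      _ = _ := by rw [a.map_neg]
  rw [map_mul, hi', hj', map_mul a (x j) (y i)] at h3
  have h5 := hK i j
  have h6 : A * B - K ≤ A * a (y i) := by
    have := mul_le_mul_of_nonneg_right hxj (a.nonneg (y i))
    linarith
  have h7 := hK i i
  have h8 : x i * y i + x i * y i = 2 * (x i * y i) := by ring
  rw [h8, map_mul, map_mul, hi'] at h7
  have h9 : 1 / 2 * (A * a (y i)) ≤ a 2 * (A * a (y i)) :=
    mul_le_mul_of_nonneg_right h2 (mul_nonneg hA.le (a.nonneg _))
  have hAB : 0 < A * B := mul_pos hA hB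
  nlinarith

/-- the bilinear form of the symmetric tensor -/
theorem bil (x y : Fin 3 → L) (c : ℚ) (M : Fin 3 → Fin 3 → ℤ)
    (hM : ∀ i j, (M i j : L) = algebraMap ℚ L c * (x i * y j + x j * y i)) (G H : Fin 3 → ℚ) :
    algebraMap ℚ L (∑ i, ∑ j, G i * (M i j : ℚ) * H j) =
      algebraMap ℚ L c * (ev G x * ev H y + ev G y * ev H x) := by
  have h1 : algebraMap ℚ L (∑ i, ∑ j, G i * (M i j : ℚ) * H j) =
      ∑ i, ∑ j, algebraMap ℚ L (G i) * (algebraMap ℚ L c * (x i * y j + x j * y i)) *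
        algebraMap ℚ L (H j) := by
    rw [map_sum]
    refine Finset.sum_congr rfl fun i _ => ?_
    rw [map_sum]
    refine Finset.sum_congr rfl fun j _ => ?_
    rw [map_mul, map_mul, map_intCast, hM]
  rw [h1]
  unfold ev
  simp only [Fin.sum_univ_three]
  ring

theorem pair_le (a : AbsoluteValue L ℝ) (h2 : 1 / 2 ≤ a 2) {x y : Fin 3 → L} (hx : x ≠ 0)
    (hy : y ≠ 0) {c : ℚ} {M : Fin 3 → Fin 3 → ℤ}
    (hM : ∀ i j, (M i j : L) = algebraMap ℚ L c * (x i * y j + x j * y i)) {K : ℝ}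
    (hK : ∀ i j, a (M i j : L) ≤ K) (G H : Fin 3 → ℚ) :
    a (algebraMap ℚ L (∑ i, ∑ j, G i * (M i j : ℚ) * H j)) ≤
      17 * K * max (nrm a x G * nrm a y H) (nrm a y G * nrm a x H) := by
  have hA : 0 < ⨆ j, a (x j) := sup_pos a hx
  have hB : 0 < ⨆ j, a (y j) := sup_pos a hy
  have hKn : 0 ≤ K := (a.nonneg _).trans (hK 0 0)
  rw [bil x y c M hM, map_mul]
  set A := ⨆ j, a (x j) with hAdef
  set B := ⨆ j, a (y j) with hBdef
  set m := max (nrm a x G * nrm a y H) (nrm a y G * nrm a x H) with hm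
  have hm0 : 0 ≤ m := by
    refine le_max_of_le_left (mul_nonneg ?_ ?_)
    · exact div_nonneg (a.nonneg _) hA.le
    · exact div_nonneg (a.nonneg _) hB.le
  have hev : ∀ G, a (ev G x) = A * nrm a x G := by
    intro G
    unfold nrm
    rw [← hAdef]
    field_simp
  have hev' : ∀ G, a (ev G y) = B * nrm a y G := by
    intro G
    unfold nrm
    rw [← hBdef]
    field_simp
  have h3 : a (ev G x * ev H y + ev G y * ev H x) ≤ 2 * (A * B * m) := by
    refine (a.add_le _ _).trans ?_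
    rw [map_mul, map_mul, hev, hev, hev', hev']
    have h4 : A * nrm a x G * (B * nrm a y H) = A * B * (nrm a x G * nrm a y H) := by ring
    have h5 : B * nrm a y G * (A * nrm a x H) = A * B * (nrm a y G * nrm a x H) := by ring
    rw [h4, h5]
    have hAB : 0 ≤ A * B := (mul_pos hA hB).le
    have h6 := mul_le_mul_of_nonneg_left (le_max_left (nrm a x G * nrm a y H)
      (nrm a y G * nrm a x H)) hAB
    have h7 := mul_le_mul_of_nonneg_left (le_max_right (nrm a x G * nrm a y H)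
      (nrm a y G * nrm a x H)) hAB
    rw [← hm] at h6 h7
    linarith
  -- Gauss
  have h8 : a (algebraMap ℚ L c) * (A * B) ≤ 4 * K := by
    by_cases hc : a (algebraMap ℚ L c) = 0
    · rw [hc, zero_mul]
      linarith
    · have hc0 : 0 < a (algebraMap ℚ L c) := lt_of_le_of_ne (a.nonneg _) (Ne.symm hc)
      have h9 := gauss a h2 hx hy (K := K / a (algebraMap ℚ L c)) (by
        intro i j
        rw [le_div_iff₀ hc0, mul_comm, ← map_mul, ← hM]
        exact hK i j)
      rw [← hAdef, ← hBdef] at h9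
      calc a (algebraMap ℚ L c) * (A * B) ≤ a (algebraMap ℚ L c) * (4 * (K / a (algebraMap ℚ L c))) :=
            mul_le_mul_of_nonneg_left h9 hc0.le
        _ = 4 * K := by field_simp
  calc a (algebraMap ℚ L c) * a (ev G x * ev H y + ev G y * ev H x)
      ≤ a (algebraMap ℚ L c) * (2 * (A * B * m)) := mul_le_mul_of_nonneg_left h3 (a.nonneg _)
    _ = 2 * m * (a (algebraMap ℚ L c) * (A * B)) := by ring
    _ ≤ 2 * m * (4 * K) := mul_le_mul_of_nonneg_left h8 (by positivity)
    _ ≤ 17 * K * m := by nlinarith [mul_nonneg hKn hm0]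

end Pool.Agent.Y734.BR
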