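import Mathlib
import Pool.Agent.Y734.BR.Fin
import Pool.Agent.W231.V.Ht

/-!
# Job BR: heights
-/

set_option autoImplicit false

namespace Pool.Agent.Y734.BR

open NumberField IsDedekindDomain Pool.Agent.TeamU Height

variable {L : Type} [Field L] [NumberField L]

/-- the action on the primes as a permutation -/
noncomputable def actEquiv (σ : L ≃ₐ[ℚ] L) : HeightOneSpectrum (𝓞 L) ≃ HeightOneSpectrum (𝓞 L) where
  toFun := act σ
  invFun := act σ⁻¹
  left_inv v := by rw [← act_mul, inv_mul_cancel, act_one]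
  right_inv v := by rw [← act_mul, mul_inv_cancel, act_one]

/-- conjugate points have the same height -/
theorem mulHeight_conj (σ : L ≃ₐ[ℚ] L) {ι : Type} [Finite ι] {x : ι → L} (hx : x ≠ 0) :
    mulHeight (fun i => σ (x i)) = mulHeight x := by
  have hx' : (fun i => σ (x i)) ≠ 0 := by
    intro h
    apply hx
    funext i
    have := congrFun h i
    simpa using this
  rw [NumberField.mulHeight_eq hx, NumberField.mulHeight_eq hx']
  congr 1
  · rw [← Equiv.prod_comp (MulAction.toPerm (σ⁻¹ : L ≃ₐ[ℚ] L) : Equiv.Perm (InfinitePlace L))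
      (fun v : InfinitePlace L => (⨆ i, v (x i)) ^ v.mult)]
    refine Finset.prod_congr rfl fun w _ => ?_
    rw [MulAction.toPerm_apply]
    have h1 : ((σ⁻¹ : L ≃ₐ[ℚ] L) • w).mult = w.mult := by
      by_cases hr : InfinitePlace.IsReal w
      · rw [InfinitePlace.mult, InfinitePlace.mult, if_pos hr,
          if_pos (InfinitePlace.isReal_smul_iff.2 hr)]
      · rw [InfinitePlace.mult, InfinitePlace.mult, if_neg hr,
          if_neg (fun h => hr (InfinitePlace.isReal_smul_iff.1 h))]
    rw [h1]
    rfl
  · rw [finprod_places (fun v => ⨆ i, v (σ (x i))), finprod_places (fun v => ⨆ i, v (x i)),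
      ← finprod_comp_equiv (actEquiv σ)]
    refine finprod_congr fun v => ?_
    congr 1
    funext i
    exact mk_act σ v (x i)

/-- the symmetric tensor -/
theorem logHeight_sym (σ : L ≃ₐ[ℚ] L) {x : Fin 3 → L} (hx : x ≠ 0) :
    logHeight (fun a : Fin 3 × Fin 3 => x a.1 * σ (x a.2) + x a.2 * σ (x a.1)) ≤
      (Module.finrank ℚ L : ℝ) * 17 + 2 * logHeight x := by
  classical
  set A : (Fin 3 × Fin 3) × (Fin 3 × Fin 3) → L := fun p =>
    (((if p.2 = p.1 then 1 else 0) + (if p.2 = p.1.swap then 1 else 0) : ℕ) : L) with hA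
  have hx' : (fun i => σ (x i)) ≠ 0 := by
    intro h
    apply hx
    funext i
    have := congrFun h i
    simpa using this
  have h1 := logHeight_linearMap_apply_le A (fun a : Fin 3 × Fin 3 => x a.1 * σ (x a.2))
  have h2 : (fun j => ∑ i, A (j, i) * (x i.1 * σ (x i.2))) =
      fun a : Fin 3 × Fin 3 => x a.1 * σ (x a.2) + x a.2 * σ (x a.1) := by
    funext j
    simp only [hA, Nat.cast_add, add_mul, Finset.sum_add_distrib]
    congr 1
    · simp
    · simp
  rw [h2] at h1
  have h3 : logHeight (fun a : Fin 3 × Fin 3 => x a.1 * σ (x a.2)) = 2 * logHeight x := by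
    have h4 := logHeight_fun_mul_eq hx hx'
    have h5 : logHeight (fun i => σ (x i)) = logHeight x := by
      rw [logHeight_eq_log_mulHeight, logHeight_eq_log_mulHeight, mulHeight_conj σ hx]
    rw [h5] at h4
    rw [h4]
    ring
  have h6 : logHeight A ≤ (totalWeight L : ℝ) * Real.log 2 := by
    apply Pool.Agent.W231.V.logHeight_le_of
    · intro h
      have := congrFun h ((0, 1), (0, 1))
      simp [hA] at this
    · norm_num
    · intro w p
      simp only [hA]
      have h7 : w ((((if p.2 = p.1 then 1 else 0) + (if p.2 = p.1.swap then 1 else 0) : ℕ) : L)) =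
          (((if p.2 = p.1 then 1 else 0) + (if p.2 = p.1.swap then 1 else 0) : ℕ) : ℝ) :=
        (fun k : ℕ => (by simp : w (k : L) = k)) _
      rw [h7]
      split_ifs <;> norm_num
    · intro v p
      exact Pool.Agent.W231.V.fv_nat v _
  rw [h3, totalWeight_eq_finrank] at h1
  rw [totalWeight_eq_finrank] at h6
  have h8 : Real.log (Nat.card (Fin 3 × Fin 3)) + Real.log 2 ≤ 17 := by
    have e : (Nat.card (Fin 3 × Fin 3) : ℝ) = 9 := by
      rw [Nat.card_prod, Nat.card_fin]; norm_num
    rw [e, ← Real.log_mul (by norm_num) (by norm_num)]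
    have := Real.log_le_sub_one_of_pos (show (0 : ℝ) < 9 * 2 by norm_num)
    linarith
  have hn : (0 : ℝ) ≤ Module.finrank ℚ L := by positivity
  nlinarith [mul_le_mul_of_nonneg_left h8 hn]

end Pool.Agent.Y734.BR
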