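import Mathlib
import Pool.Agent.Y734.BR.Ht

/-!
# Job BR: primitive integral vectors
-/

set_option autoImplicit false

namespace Pool.Agent.Y734.BR

open NumberField IsDedekindDomain Height

theorem exists_prim {ι : Type} [Fintype ι] (m : ι → ℚ) (hm : m ≠ 0) :
    ∃ (c : ℚ) (M : ι → ℤ), c ≠ 0 ∧ (∀ i, (M i : ℚ) = c * m i) ∧ ∃ b : ι → ℤ, ∑ i, M i * b i = 1 := by
  classical
  obtain ⟨D, hD⟩ := IsLocalization.exist_integer_multiples_of_finite (nonZeroDivisors ℤ) m
  have hD0 : ((D : ℤ) : ℚ) ≠ 0 := by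
    exact_mod_cast nonZeroDivisors.coe_ne_zero D
  choose M1 hM1 using hD
  have hM1' : ∀ i, (M1 i : ℚ) = ((D : ℤ) : ℚ) * m i := by
    intro i
    have := hM1 i
    rw [zsmul_eq_mul] at this
    simpa using this
  obtain ⟨i₀, hi₀⟩ := Function.ne_iff.1 hm
  have hi₀' : M1 i₀ ≠ 0 := by
    intro h
    have := hM1' i₀
    rw [h] at this
    push_cast at this
    rcases mul_eq_zero.1 this.symm with h1 | h1
    · exact hD0 h1
    · exact hi₀ h1
  obtain ⟨g, hg1, hg2⟩ := Finset.extract_gcd M1 (Finset.univ_nonempty_iff.2 ⟨i₀⟩)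
  have hgcd : Finset.univ.gcd M1 ≠ 0 := by
    intro h
    exact hi₀' (Finset.gcd_eq_zero_iff.1 h i₀ (Finset.mem_univ _))
  have hgcd' : ((Finset.univ.gcd M1 : ℤ) : ℚ) ≠ 0 := by exact_mod_cast hgcd
  obtain ⟨b, hb⟩ := Finset.gcd_eq_sum_mul Finset.univ g
  refine ⟨((D : ℤ) : ℚ) / ((Finset.univ.gcd M1 : ℤ) : ℚ), g, div_ne_zero hD0 hgcd', ?_, b, ?_⟩
  · intro i
    have h1 := hg1 i (Finset.mem_univ _)
    have h2 : (M1 i : ℚ) = ((Finset.univ.gcd M1 : ℤ) : ℚ) * (g i : ℚ) := by exact_mod_cast h1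
    rw [div_mul_eq_mul_div, ← hM1' i, h2, mul_div_cancel_left₀ _ hgcd']
  · rw [← hb, hg2]

variable {L : Type} [Field L] [NumberField L]

theorem height_int {ι : Type} [Fintype ι] (M b : ι → ℤ) (hb : ∑ i, M i * b i = 1) :
    (Module.finrank ℚ L : ℝ) * Real.log (⨆ i, |(M i : ℝ)|) ≤ logHeight (fun i => (M i : L)) := by
  classical
  have hne : (fun i => (M i : L)) ≠ 0 := by
    intro h
    have h1 : ∀ i, M i = 0 := fun i => by
      have h0 : (M i : L) = 0 := congrFun h i
      exact_mod_cast h0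
    rw [Finset.sum_eq_zero (fun i _ => by rw [h1 i, zero_mul])] at hb
    exact zero_ne_one hb
  have hnonempty : Nonempty ι := by
    by_contra h
    rw [not_nonempty_iff] at h
    rw [Finset.univ_eq_empty, Finset.sum_empty] at hb
    exact zero_ne_one hb
  have hinf : ∀ w : InfinitePlace L, ∀ m : ℤ, w (m : L) = |(m : ℝ)| := by
    intro w m
    rw [← w.norm_embedding_eq, map_intCast, Complex.norm_intCast]
  have hfin : ∀ v : FinitePlace L, (⨆ i, v (M i : L)) = 1 := by
    intro v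
    have hna : IsNonarchimedean (v ·) := FinitePlace.add_le v
    have hle : ∀ m : ℤ, v (m : L) ≤ 1 := fun m => IsNonarchimedean.apply_intCast_le_one hna
    apply le_antisymm (ciSup_le fun i => hle _)
    have h1 : (1 : ℝ) = v (∑ i, (M i : L) * (b i : L)) := by
      have := congrArg (Int.cast : ℤ → L) hb
      push_cast at this
      rw [this, map_one]
    obtain ⟨i, -, hi⟩ := IsNonarchimedean.finset_image_add_of_nonempty hna
      (fun i => (M i : L) * (b i : L)) (Finset.univ_nonempty (α := ι))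
    rw [← h1] at hi
    have hi' : (1 : ℝ) ≤ v ((M i : L) * (b i : L)) := hi
    rw [map_mul] at hi'
    have h2 : v (M i : L) * v (b i : L) ≤ v (M i : L) :=
      mul_le_of_le_one_right (apply_nonneg _ _) (hle _)
    exact (hi'.trans h2).trans (Finite.le_ciSup_of_le (f := fun i => v (M i : L)) i le_rfl)
  rw [logHeight_eq_log_mulHeight, NumberField.mulHeight_eq hne,
    finprod_eq_one_of_forall_eq_one hfin, mul_one]
  simp only [hinf]
  rw [Finset.prod_pow_eq_pow_sum, InfinitePlace.sum_mult_eq, Real.log_pow]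

end Pool.Agent.Y734.BR
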