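import Mathlib
import Pool.Agent.Y734.BR.Pair
import Pool.Agent.Y734.BR.Prim

/-!
# Job BR: the data attached to a quadratic point
-/

set_option autoImplicit false

namespace Pool.Agent.Y734.BR

open NumberField IsDedekindDomain MvPolynomial

section

variable {L : Type} [Field L] [NumberField L]

/-- the absolute value of a complex embedding -/
noncomputable def cabs (φ : L →+* ℂ) : AbsoluteValue L ℝ := (InfinitePlace.mk φ).1

omit [NumberField L] in
theorem cabs_apply (φ : L →+* ℂ) (y : L) : cabs φ y = ‖φ y‖ := rfl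

theorem cabs_rat (φ : L →+* ℂ) (r : ℚ) : cabs φ (algebraMap ℚ L r) = |(r : ℝ)| := by
  rw [cabs_apply, eq_ratCast, map_ratCast]
  exact Complex.norm_ratCast r

theorem cabs_int (φ : L →+* ℂ) (m : ℤ) : cabs φ (m : L) = |(m : ℝ)| := by
  rw [cabs_apply, map_intCast, Complex.norm_intCast]

theorem conj_ne (σ : L ≃ₐ[ℚ] L) {x : Fin 3 → L} (hx : x ≠ 0) : (fun j => σ (x j)) ≠ 0 := by
  intro h
  apply hx
  funext i
  have h0 : σ (x i) = 0 := congrFun h i
  simpa using h0

theorem aeval_conj (σ : L ≃ₐ[ℚ] L) (x : Fin 3 → L) (F : MvPolynomial (Fin 3) ℚ) :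
    aeval (fun j => σ (x j)) F = σ (aeval x F) := by
  exact (comp_aeval_apply x (σ : L →ₐ[ℚ] L) F).symm

/-- the Weil function at the conjugate point -/
theorem weil_conj (σ : L ≃ₐ[ℚ] L) (a : AbsoluteValue L ℝ) (F : MvPolynomial (Fin 3) ℚ) (d : ℕ)
    (x : Fin 3 → L) :
    weil (n := 2) (fun y => a (σ y)) F d x = weil (n := 2) a F d (fun j => σ (x j)) := by
  unfold weil
  rw [aeval_conj]

theorem two_le {p : ℕ} (hp : p.Prime) : (1 / 2 : ℝ) ≤ (padicNorm p (2 : ℚ) : ℝ) := by
  have hfact : Fact p.Prime := ⟨hp⟩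
  by_cases h2 : p = 2
  · subst h2
    have h1 : padicNorm 2 (2 : ℚ) = (2 : ℚ)⁻¹ := by
      have := padicNorm.padicNorm_p_of_prime (p := 2)
      exact_mod_cast this
    rw [h1]
    norm_num
  · have h1 : padicNorm p (((2 : ℕ) : ℤ) : ℚ) = 1 := by
      rw [padicNorm.int_eq_one_iff, Int.natCast_dvd_natCast]
      intro h
      exact h2 ((Nat.prime_dvd_prime_iff_eq hp Nat.prime_two).1 h)
    have h3 : padicNorm p (2 : ℚ) = 1 := by exact_mod_cast h1
    rw [h3]
    norm_num

/-- the absolute values -/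
noncomputable def av {S : Finset ℕ} (φ : L →+* ℂ) (μ : S → AbsoluteValue L ℝ) (v : Option S) :
    AbsoluteValue L ℝ := v.elim (cabs φ) μ

/-- the contributions of the places of `ℚ` -/
theorem prox_eq {σ : L ≃ₐ[ℚ] L} (h : Cj σ) (S : Finset ℕ) (hS : ∀ p ∈ S, p.Prime)
    (μ : S → AbsoluteValue L ℝ)
    (hμ : ∀ (p : S) (x : Fin 3 → L) (F : MvPolynomial (Fin 3) ℚ) (d : ℕ), x ≠ 0 → aeval x F ≠ 0 →
        2 / (Module.finrank ℚ L : ℝ) * ∑ᶠ v ∈ Ab L p, weil (n := 2) (FinitePlace.mk v) F d x =
          weil (n := 2) (μ p) F d x + weil (n := 2) (fun y => μ p (σ y)) F d x)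
    (φ : L →+* ℂ) {x : Fin 3 → L} (hx : x ≠ 0) (F : MvPolynomial (Fin 3) ℚ) (d : ℕ)
    (hF : aeval x F ≠ 0) :
    2 * proximity (n := 2) S F d x =
      ∑ v : Option S, (weil (n := 2) (av φ μ v) F d x +
        weil (n := 2) (av φ μ v) F d (fun j => σ (x j))) := by
  classical
  have h1 := h.sum_inf φ (fun a => weil (n := 2) a F d x)
  have h2 : ∑ᶠ v ∈ {v : HeightOneSpectrum (𝓞 L) | ∃ p ∈ S, (p : 𝓞 L) ∈ v.asIdeal},
      weil (n := 2) (FinitePlace.mk v) F d x =
      ∑ p : S, ∑ᶠ v ∈ Ab L p, weil (n := 2) (FinitePlace.mk v) F d x := by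
    have h3 : {v : HeightOneSpectrum (𝓞 L) | ∃ p ∈ S, (p : 𝓞 L) ∈ v.asIdeal} =
        ⋃ p ∈ (S : Set ℕ), Ab L p := by
      ext v
      simp [Ab]
    rw [h3, finsum_mem_biUnion, finsum_mem_coe_finset, ← Finset.sum_coe_sort]
    · intro p hp p' hp' hne
      rw [Function.onFun, Set.disjoint_left]
      intro v hv hv'
      exact hne (ab_disj (hS p hp) (hS p' hp') hv hv')
    · exact S.finite_toSet
    · intro p hp
      obtain ⟨w, hw⟩ := ab_nonempty (L := L) (hS p hp)
      rw [h.ab_eq (hS p hp) hw]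
      exact Set.toFinite _
  have hn : (Module.finrank ℚ L : ℝ) ≠ 0 := by
    exact_mod_cast (Module.finrank_pos (R := ℚ) (M := L)).ne'
  unfold proximity
  rw [h2, ← mul_div_assoc, mul_add, add_div, mul_div_right_comm, mul_div_right_comm, h1,
    Finset.mul_sum, Fintype.sum_option]
  have h5 : weil (n := 2) (fun y => ‖φ (σ y)‖) F d x =
      weil (n := 2) (cabs φ) F d (fun j => σ (x j)) := weil_conj σ (cabs φ) F d x
  have h6 : ∑ p : S, 2 / (Module.finrank ℚ L : ℝ) *
      ∑ᶠ v ∈ Ab L p, weil (n := 2) (FinitePlace.mk v) F d x =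
      ∑ p : S, (weil (n := 2) (av φ μ (some p)) F d x +
        weil (n := 2) (av φ μ (some p)) F d (fun j => σ (x j))) := by
    refine Finset.sum_congr rfl fun p _ => ?_
    rw [hμ p x F d hx hF, weil_conj]
    rfl
  rw [h6, h5]
  rfl

end

/-- **Job BR.** -/
theorem br : BrStmt := by
  intro S hS q H
  refine ⟨17, ?_⟩
  intro L _ _ hL x hx hH
  obtain ⟨σ, hσ⟩ := exists_cj hL
  obtain ⟨φ⟩ : Nonempty (L →+* ℂ) := inferInstance
  have hμ' := fun p : S => exists_loc hσ (hS p p.2)
  choose μ hμ1 hμ2 hμ3 using hμ'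
  set y : Fin 3 → L := fun j => σ (x j) with hy
  have hy0 : y ≠ 0 := conj_ne σ hx
  -- the tensor
  have hfix : ∀ i j, σ (x i * y j + x j * y i) = x i * y j + x j * y i := by
    intro i j
    simp only [hy]
    rw [map_add, map_mul, map_mul, hσ.invol, hσ.invol]
    ring
  choose m0 hm0 using fun a : Fin 3 × Fin 3 => hσ.rat (hfix a.1 a.2)
  have hm0ne : m0 ≠ 0 := by
    obtain ⟨i, hi⟩ := Function.ne_iff.1 hx
    intro h0
    have h1 := hm0 (i, i)
    rw [h0] at h1
    have h2 : (2 : L) * (x i * σ (x i)) = 0 := by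
      have h3 : algebraMap ℚ L ((0 : Fin 3 × Fin 3 → ℚ) (i, i)) = 0 := map_zero _
      rw [h3] at h1
      rw [two_mul]
      exact h1.symm
    have h4 : σ (x i) ≠ 0 := fun h => hi (by simpa using h)
    exact (mul_ne_zero two_ne_zero (mul_ne_zero hi h4)) h2
  obtain ⟨c, M, hc, hM, b, hb⟩ := exists_prim m0 hm0ne
  have hML : ∀ i j, (M (i, j) : L) = algebraMap ℚ L c * (x i * y j + x j * y i) := by
    intro i j
    have h1 := congrArg (algebraMap ℚ L) (hM (i, j))
    rw [map_intCast, map_mul, hm0 (i, j)] at h1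
    exact h1
  have hcL : algebraMap ℚ L c ≠ 0 := by
    rw [Ne, map_eq_zero]
    exact hc
  -- the height
  have hsup1 : (1 : ℝ) ≤ ⨆ a, |(M a : ℝ)| := by
    have : ∃ a, M a ≠ 0 := by
      by_contra h
      push Not at h
      rw [Finset.sum_eq_zero (fun i _ => by rw [h i, zero_mul])] at hb
      exact zero_ne_one hb
    obtain ⟨a, ha⟩ := this
    refine le_trans ?_ (Finite.le_ciSup_of_le (f := fun a => |(M a : ℝ)|) a le_rfl)
    exact_mod_cast Int.one_le_abs ha
  have hexp : Real.exp (Real.log (⨆ a, |(M a : ℝ)|)) = ⨆ a, |(M a : ℝ)| :=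
    Real.exp_log (by linarith)
  have hMle : ∀ a, |(M a : ℝ)| ≤ Real.exp (Real.log (⨆ a, |(M a : ℝ)|)) := by
    intro a
    rw [hexp]
    exact Finite.le_ciSup_of_le (f := fun a => |(M a : ℝ)|) a le_rfl
  have hn : (0 : ℝ) < Module.finrank ℚ L := by
    exact_mod_cast Module.finrank_pos (R := ℚ) (M := L)
  have hheight : Real.log (⨆ a, |(M a : ℝ)|) ≤ 2 * height (n := 2) x + 17 := by
    have h1 := height_int (L := L) M b hb
    have h2 : (fun a => (M a : L)) = algebraMap ℚ L c •
        (fun a : Fin 3 × Fin 3 => x a.1 * σ (x a.2) + x a.2 * σ (x a.1)) := by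
      funext a
      exact hML a.1 a.2
    rw [h2, Height.logHeight_smul_eq_logHeight _ hcL] at h1
    have h3 := h1.trans (logHeight_sym σ hx)
    unfold height
    have h4 : Real.log (⨆ a, |(M a : ℝ)|) ≤
        ((Module.finrank ℚ L : ℝ) * 17 + 2 * Height.logHeight x) / Module.finrank ℚ L := by
      rw [le_div_iff₀ hn, mul_comm]
      exact h3
    refine h4.trans (le_of_eq ?_)
    field_simp
    ring
  -- absolute values
  have hev : ∀ i, ev (H i) x ≠ 0 := by
    intro i hi
    apply hH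
    rw [map_prod]
    exact Finset.prod_eq_zero (Finset.mem_univ i) (by rw [ev_lin]; exact hi)
  have hev' : ∀ i, ev (H i) y ≠ 0 := by
    intro i hi
    apply hev i
    rw [hy, ev_conj] at hi
    simpa using hi
  let a : Option S → AbsoluteValue L ℝ := av φ μ
  have ha : ∀ (v : Option S) (r : ℚ), a v (algebraMap ℚ L r) =
      absQ (v.map (fun p => (p : ℕ))) r := by
    intro v r
    cases v with
    | none => exact cabs_rat φ r
    | some p => exact hμ1 p r
  refine ⟨{ z := fun j => φ (x j)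
            z' := fun j => φ (y j)
            c := (c : ℂ)
            M := fun i j => M (i, j)
            N := fun v => nrm (a v) x
            N' := fun v => nrm (a v) y
            h := Real.log (⨆ a, |(M a : ℝ)|)
            c_ne := by exact_mod_cast hc
            M_eq := ?_
            M_le := fun i j => hMle (i, j)
            h_nonneg := Real.log_nonneg hsup1
            semi := fun v => semi_nrm (a v) _ (ha v) hx
            semi' := fun v => semi_nrm (a v) _ (ha v) hy0
            pair_none := ?_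
            pair_some := ?_ }, ?_, hheight, ?_, ?_⟩
  · intro i j
    have h1 := congrArg φ (hML i j)
    rw [map_intCast, map_mul, map_add, map_mul, map_mul, eq_ratCast, map_ratCast] at h1
    exact h1
  · intro G H'
    have h2 : (1 / 2 : ℝ) ≤ cabs φ 2 := by
      have : cabs φ (2 : L) = 2 := by
        rw [cabs_apply, map_ofNat]
        simp
      rw [this]
      norm_num
    have h3 := pair_le (cabs φ) h2 hx hy0 (c := c) (M := fun i j => M (i, j)) hML
      (K := Real.exp (Real.log (⨆ a, |(M a : ℝ)|))) (fun i j => by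
        rw [cabs_int]
        exact hMle (i, j)) G H'
    rw [cabs_rat] at h3
    exact h3
  · intro p G H'
    have h2 : (1 / 2 : ℝ) ≤ μ p 2 := by
      have h4 := hμ1 p 2
      rw [map_ofNat] at h4
      rw [h4]
      exact two_le (hS p p.2)
    have hfact : Fact (p : ℕ).Prime := ⟨hS p p.2⟩
    have h3 := pair_le (μ p) h2 hx hy0 (c := c) (M := fun i j => M (i, j)) hML
      (K := 1) (fun i j => by
        have h4 := hμ1 p (M (i, j) : ℚ)
        rw [map_intCast] at h4
        rw [h4]
        exact_mod_cast padicNorm.of_int (p := p) (M (i, j))) G H'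
    rw [hμ1, mul_one] at h3
    exact h3
  · intro k Φ _ hΦ
    constructor
    · have h1 : aeval (fun j => φ (x j)) Φ = φ (aeval x Φ) :=
        (comp_aeval_apply x (φ.toRatAlgHom) Φ).symm
      rw [h1]
      exact fun h => hΦ ((map_eq_zero φ).1 h)
    · have h1 : aeval (fun j => φ (y j)) Φ = φ (aeval y Φ) :=
        (comp_aeval_apply y (φ.toRatAlgHom) Φ).symm
      rw [h1, hy, aeval_conj]
      intro h
      apply hΦ
      simpa using h
  · intro v i
    exact ⟨nrm_pos (a v) hx (hev i), nrm_pos (a v) hy0 (hev' i)⟩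
  · rw [prox_eq hσ S hS μ hμ3 φ hx _ q hH]
    have h1 : ∀ v : Option S, weil (n := 2) (av φ μ v) (∏ i, lin (n := 2) (H i)) q x +
        weil (n := 2) (av φ μ v) (∏ i, lin (n := 2) (H i)) q (fun j => σ (x j)) =
        ∑ i, (-Real.log (nrm (a v) x (H i)) - Real.log (nrm (a v) y (H i))) := by
      intro v
      rw [weil_prod (av φ μ v) hx H hev, weil_prod (av φ μ v) hy0 H hev',
        ← Finset.sum_add_distrib]
      rfl
    rw [Finset.sum_congr rfl fun v _ => h1 v]
    linarith

end Pool.Agent.Y734.BR
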